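import Pool.Agent.LeadSN.Stm

set_option autoImplicit false

open scoped BigOperators
open Pool.Agent.Y282.RB Pool.Agent.LeadSN

namespace Pool.Agent.W2helper13.SNUP

theorem s_up : S_UP := by
  intro hW hID hHS hWT n p γ hn hp hLam hx hγn
  have hnR : (1:ℝ) ≤ (n:ℝ) := by exact_mod_cast hn
  have hp100 : (100:ℝ) ≤ p := by nlinarith
  have hp0 : 0 < p := by linarith
  set s : ℝ := 1 / p with hs
  have hsp : s * p = 1 := by rw [hs]; field_simp
  have hs0 : 0 < s := by rw [hs]; positivity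
  have hs1 : s ≤ 1/100 := by
    rw [hs]; exact one_div_le_one_div_of_le (by norm_num) hp100
  have hsn : s * (100 * (n:ℝ)^2) ≤ 1 := by
    calc s * (100 * (n:ℝ)^2) ≤ s * p := mul_le_mul_of_nonneg_left hp hs0.le
      _ = 1 := hsp
  obtain ⟨hk0, -, hWT'⟩ := hWT s hs0 (by linarith)
  obtain ⟨hW1, hW2⟩ := hW n s hn hs0 hsn
  have hID' := hID n s γ hn hs0 (by linarith) hLam
  obtain ⟨-, hHS2⟩ := hHS n (kk s) hn (fun j hj => (hWT' j hj).2.2.2.2)
  obtain ⟨hWpos, hWle⟩ := hW1 n hn le_rfl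
  have hlog0 : 0 ≤ Real.log (n:ℝ) := Real.log_nonneg hnR
  have hlog1 : Real.log (n:ℝ) ≤ (n:ℝ) - 1 := Real.log_le_sub_one_of_pos (by linarith)
  set l : ℝ := 1 + 2 * Real.log (n:ℝ) with hl
  set x : ℝ := γ 0 with hxd
  set W : ℝ := WW s n with hWd
  set E : ℝ := ∑ j ∈ Finset.range n, (2 * (j : ℝ) + 1) * WW s j * WW s (j + 1) with hE
  set K : ℝ := KK s n with hKd
  set c : ℝ := 1 + 1 / (25 * (n:ℝ)) with hcd
  have hl1 : 1 ≤ l := by rw [hl]; linarith
  have hl2 : l ≤ 2 * n := by rw [hl]; linarith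
  have hn0 : (0:ℝ) < n := by linarith
  have hcn : c * n = n + 1/25 := by rw [hcd]; field_simp
  have hc1 : 1 ≤ c := by rw [hcd]; have : 0 < 1 / (25 * (n:ℝ)) := by positivity
                         linarith
  have hc2 : c ≤ 26/25 := by
    by_contra h
    push Not at h
    nlinarith
  -- W ≤ 1.04 s
  have hWs : W ≤ 26/25 * s := by
    refine hWle.trans ?_
    rw [div_le_iff₀ hn0]
    have h1 : s * c ≤ s * (26/25) := mul_le_mul_of_nonneg_left hc2 hs0.le
    have h2 : 26/25 * s * 1 ≤ 26/25 * s * (n:ℝ) := mul_le_mul_of_nonneg_left hnR (by linarith)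
    linarith
  -- K
  have hK : K * (s * (1 - s)) ≤ 1 + s * l := by
    have h1 : K = kk s 0 + ∑ j ∈ Finset.Ico 1 n, kk s j := by
      rw [hKd, KK, Finset.sum_range_eq_add_Ico _ (by omega)]
    have h2 : kk s 0 * (s * (1 - s)) = 1 := by
      rw [hk0]
      have : s * (1 - s) ≠ 0 := by
        apply mul_ne_zero hs0.ne'
        linarith
      exact one_div_mul_cancel this
    have h3 : 0 < s * (1 - s) := mul_pos hs0 (by linarith)
    have h4 : s * (1 - s) ≤ s := by nlinarith
    have h5 : K * (s * (1 - s)) ≤ 1 + l * (s * (1 - s)) := by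
      rw [h1, add_mul, h2]
      have := mul_le_mul_of_nonneg_right hHS2 h3.le
      linarith
    have h6 : l * (s * (1 - s)) ≤ l * s := mul_le_mul_of_nonneg_left h4 (by linarith)
    linarith [mul_comm l s]
  have hK0 : 0 ≤ K := by
    rw [hKd, KK]
    apply Finset.sum_nonneg
    intro j hj
    rcases Nat.eq_zero_or_pos j with h | h
    · rw [h, hk0]
      have : 0 < s * (1 - s) := mul_pos hs0 (by linarith)
      positivity
    · exact (hWT' j h).1.le
  -- E
  have hE1 : E * (1 - s) ≤ s * (1 + s * c^2 * l) := by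
    have h0 : 0 < 1 - s := by linarith
    have h1 : E * (1 - s) ≤ (s / (1 - s) + s ^ 2 * c ^ 2 * l) * (1 - s) :=
      mul_le_mul_of_nonneg_right hW2 h0.le
    have h2 : (s / (1 - s) + s ^ 2 * c ^ 2 * l) * (1 - s) = s + s^2 * c^2 * l * (1 - s) := by
      field_simp
    have h3 : s^2 * c^2 * l * (1 - s) ≤ s^2 * c^2 * l := by
      have : 0 ≤ s^2 * c^2 * l := by positivity
      exact mul_le_of_le_one_right this (by linarith)
    have h4 : s * (1 + s * c^2 * l) = s + s^2 * c^2 * l := by ring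
    rw [h4]; linarith
  have hE0 : 0 ≤ E := by
    by_contra hneg
    push Not at hneg
    have h1 : K * E ≤ 0 := mul_nonpos_of_nonneg_of_nonpos hK0 hneg.le
    have h2 : 0 ≤ E := by
      rw [hE]
      apply Finset.sum_nonneg
      intro j hj
      have hj' : j < n := Finset.mem_range.mp hj
      have h3 : 0 < WW s (j+1) := (hW1 (j+1) (by omega) (by omega)).1
      have h4 : 0 < WW s j := by
        rcases Nat.eq_zero_or_pos j with h | h
        · rw [h]; simp [WW]
        · exact (hW1 j h (by omega)).1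
      positivity
    linarith
  -- main inequality
  have hmain : x * (1 - W) ≤ Real.sqrt (K * E) := by
    have h1 : |γ n| ≤ x := by
      exact abs_le_of_sq_le_sq hγn hx
    have h2 : W * |γ n| ≤ W * x := mul_le_mul_of_nonneg_left h1 hWpos.le
    have h3 : |γ 0| = x := abs_of_nonneg hx
    rw [h3] at hID'
    have h4 : x * (1 - W) = x - W * x := by ring
    rw [h4]; linarith
  have hsq : (x * (1 - W))^2 ≤ K * E := by
    have h1 : 0 ≤ x * (1 - W) := mul_nonneg hx (by linarith)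
    calc (x * (1 - W))^2 ≤ (Real.sqrt (K * E))^2 := by
          exact pow_le_pow_left₀ h1 hmain 2
      _ = K * E := Real.sq_sqrt (mul_nonneg hK0 hE0)
  -- product
  set q : ℝ := s * l with hq
  have hsn2 : s * (n:ℝ) ≤ 1/100 := by
    have h1 : s * (n:ℝ) ≤ s * (n:ℝ)^2 := by
      apply mul_le_mul_of_nonneg_left _ hs0.le
      nlinarith
    have h2 : s * (100 * (n:ℝ)^2) = 100 * (s * (n:ℝ)^2) := by ring
    linarith
  have hq0 : 0 ≤ q := by rw [hq]; positivity
  have hq1 : q ≤ 1/50 := by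
    have h1 : s * l ≤ s * (2 * n) := mul_le_mul_of_nonneg_left hl2 hs0.le
    have h2 : s * (2 * (n:ℝ)) = 2 * (s * n) := by ring
    rw [hq]; linarith
  have hq2 : q^2 ≤ 1/25 * s := by
    have h1 : l^2 ≤ (2 * n)^2 := pow_le_pow_left₀ (by linarith) hl2 2
    have h2 : s * l^2 ≤ 1/25 := by
      have h21 : s * l^2 ≤ s * (2 * n)^2 := mul_le_mul_of_nonneg_left h1 hs0.le
      have h22 : s * (2 * (n:ℝ))^2 = (s * (100 * (n:ℝ)^2)) / 25 := by ring
      linarith
    have h3 : q^2 = s * (s * l^2) := by rw [hq]; ring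
    have h4 : s * (s * l^2) ≤ s * (1/25) := mul_le_mul_of_nonneg_left h2 hs0.le
    rw [h3]; linarith
  have hcq : s * c^2 * l ≤ q + 17/100 * s := by
    have h1 : c^2 * n ≤ n + 51/625 := by
      have h2 : c^2 * n = c * n + c * (1/25) := by
        have h21 : c^2 * n = c * (c * n) := by ring
        rw [h21, hcn]
        have h22 : c * ((n:ℝ) + 1/25) = c * n + c * (1/25) := by ring
        rw [h22, hcn]
      rw [h2, hcn]; linarith
    have h3 : (c^2 - 1) * n ≤ 51/625 := by
      have h31 : (c^2 - 1) * (n:ℝ) = c^2 * n - n := by ring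
      linarith
    have h4 : (c^2 - 1) * l ≤ (c^2 - 1) * (2 * n) := by
      apply mul_le_mul_of_nonneg_left hl2
      nlinarith
    have h5 : (c^2 - 1) * l ≤ 17/100 := by
      have h51 : (c^2 - 1) * (2 * (n:ℝ)) = 2 * ((c^2 - 1) * n) := by ring
      linarith
    have h6 : s * c^2 * l = q + s * ((c^2 - 1) * l) := by rw [hq]; ring
    have h7 : s * ((c^2 - 1) * l) ≤ s * (17/100) := mul_le_mul_of_nonneg_left h5 hs0.le
    rw [h6]; linarith
  have hprod : K * E * (1 - s)^2 ≤ 1 + 2 * q + 1/4 * s := by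
    have h1 : (K * (s * (1 - s))) * (E * (1 - s)) ≤ (1 + q) * (s * (1 + s * c^2 * l)) := by
      apply mul_le_mul hK hE1
      · exact mul_nonneg hE0 (by linarith)
      · linarith
    have h2 : s * (K * E * (1 - s)^2) ≤ s * ((1 + q) * (1 + s * c^2 * l)) := by
      have h3 : s * (K * E * (1 - s)^2) = (K * (s * (1 - s))) * (E * (1 - s)) := by ring
      rw [h3]
      calc _ ≤ _ := h1
        _ = _ := by ring
    have h4 := le_of_mul_le_mul_left h2 hs0
    have h5 : (1 + q) * (1 + s * c^2 * l) ≤ (1 + q) * (1 + q + 17/100 * s) :=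
      mul_le_mul_of_nonneg_left (by linarith) (by linarith)
    have h6 : (1 + q) * (1 + q + 17/100 * s) = 1 + 2 * q + q^2 + 17/100 * s + 17/100 * (q * s) := by
      ring
    have h7 : q * s ≤ 1/50 * s := mul_le_mul_of_nonneg_right hq1 hs0.le
    linarith
  have hWs2 : 1 - 52/25 * s ≤ (1 - W)^2 := by
    have h1 : (1 - W)^2 = 1 - 2 * W + W^2 := by ring
    have h2 : 0 ≤ W^2 := sq_nonneg W
    linarith
  have hs2 : 1 - 2 * s ≤ (1 - s)^2 := by
    have h1 : (1 - s)^2 = 1 - 2 * s + s^2 := by ring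
    have h2 : 0 ≤ s^2 := sq_nonneg s
    linarith
  have hX : x^2 * (1 - 102/25 * s) ≤ 1 + 2 * q + 1/4 * s := by
    have h1 : (1 - 52/25 * s) * (1 - 2 * s) ≤ (1 - W)^2 * (1 - s)^2 := by
      apply mul_le_mul hWs2 hs2
      · linarith
      · positivity
    have h2 : 1 - 102/25 * s ≤ (1 - W)^2 * (1 - s)^2 := by
      have h21 : (1 - 52/25 * s) * (1 - 2 * s) = 1 - 102/25 * s + 104/25 * s^2 := by ring
      have h22 : 0 ≤ s^2 := sq_nonneg s
      linarith
    have h3 : x^2 * (1 - 102/25 * s) ≤ x^2 * ((1 - W)^2 * (1 - s)^2) :=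
      mul_le_mul_of_nonneg_left h2 (sq_nonneg x)
    have h4 : x^2 * ((1 - W)^2 * (1 - s)^2) = (x * (1 - W))^2 * (1 - s)^2 := by ring
    have h5 : (x * (1 - W))^2 * (1 - s)^2 ≤ K * E * (1 - s)^2 :=
      mul_le_mul_of_nonneg_right hsq (sq_nonneg _)
    linarith
  have hfin : x^2 - 1 ≤ 2 * q + 5 * s := by
    by_contra hcon
    push Not at hcon
    have h1 : 0 < 1 - 102/25 * s := by linarith
    have h2 : (1 + 2 * q + 5 * s) * (1 - 102/25 * s) ≤ x^2 * (1 - 102/25 * s) :=
      mul_le_mul_of_nonneg_right (by linarith) h1.le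
    have h3 : (1 + 2 * q + 5 * s) * (1 - 102/25 * s) ≤ 1 + 2 * q + 1/4 * s := h2.trans hX
    have h4 : (1 + 2 * q + 5 * s) * (1 - 102/25 * s)
        = 1 + 2 * q + 23/25 * s - 204/25 * (q * s) - 102/5 * (s * s) := by ring
    have h5 : q * s ≤ 1/50 * s := mul_le_mul_of_nonneg_right hq1 hs0.le
    have h6 : s * s ≤ 1/100 * s := mul_le_mul_of_nonneg_right hs1 hs0.le
    linarith
  have hgoal : p * (x^2 - 1) ≤ 2 * l + 5 := by
    have h1 : p * (x^2 - 1) ≤ p * (2 * q + 5 * s) := mul_le_mul_of_nonneg_left hfin hp0.le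
    have h2 : p * (2 * q + 5 * s) = (s * p) * (2 * l + 5) := by rw [hq]; ring
    rw [h2, hsp, one_mul] at h1
    exact h1
  rw [hl] at hgoal
  linarith

end Pool.Agent.W2helper13.SNUP
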